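import Pool.Agent.Y294.TB.Stm
import Pool.Agent.TH746.IR.VChn

/-!
Statements for rays of invisibility in the plane with at most two arbitrary reflections: chains of
mirrors with flights of any sign. Adapted from `Pool/Agent/TH746/Chn.lean` and
`Pool/Agent/Y294/TB/Stm.lean`.
-/

set_option autoImplicit false

open MeasureTheory Set Filter Topology
open scoped InnerProductSpace
open Pool.Agent.H721R2.Quart Pool.Agent.H721R2.Ivrii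

namespace Pool.Agent.Y294.IV

open Pool.Agent.TH746 Pool.Agent.TH746.AL MvPolynomial H450Al H450Sp Pool.Agent.Y294.TB
open Pool.Agent.TH746.IR (VOrb)

/-- A chain of mirrors: a family of trajectories with `N` bounces and flights of any sign, parametrised
by the initial position and direction. -/
structure Chn (E Z : Type*) [NormedAddCommGroup E] [InnerProductSpace ℝ E]
    [NormedAddCommGroup Z] [NormedSpace ℝ Z] where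
  U : Set Z
  hU : IsOpen U
  N : ℕ
  hN : 0 < N
  g : E ≃ᵃⁱ[ℝ] E
  x : ℕ → Z → E
  e : ℕ → Z → E
  n : ℕ → Z → E
  L : ℕ → Z → ℝ
  S : ℕ → Z → E →L[ℝ] E
  dx : ∀ k ≤ N, ∀ z ∈ U, DifferentiableAt ℝ (x k) z
  de : ∀ k ≤ N, ∀ z ∈ U, DifferentiableAt ℝ (e k) z
  dn : ∀ k ≤ N, ∀ z ∈ U, DifferentiableAt ℝ (n k) z
  dL : ∀ k < N, ∀ z ∈ U, DifferentiableAt ℝ (L k) z
  dS : ∀ k < N, ∀ z ∈ U, DifferentiableAt ℝ (S k) z
  ee : ∀ k < N, ∀ z ∈ U, ⟪e k z, e k z⟫_ℝ = 1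
  nn : ∀ k < N, ∀ z ∈ U, ⟪n k z, n k z⟫_ℝ = 1
  step : ∀ k < N, ∀ z, x (k + 1) z = x k z + L k z • e k z
  refl : ∀ k < N, ∀ z, e (k + 1) z = rf (n (k + 1) z) (e k z)
  tr : ∀ k < N, ∀ z ∈ U, ⟪n k z, e k z⟫_ℝ ≠ 0
  sym : ∀ k < N, ∀ z ∈ U, ∀ v w, ⟪S k z v, w⟫_ℝ = ⟪v, S k z w⟫_ℝ
  Sn : ∀ k < N, ∀ z ∈ U, S k z (n k z) = 0
  tan : ∀ k < N, ∀ z ∈ U, ∀ ζ, ⟪n k z, fderiv ℝ (x k) z ζ⟫_ℝ = 0
  njac : ∀ k < N, ∀ z ∈ U, ∀ ζ, fderiv ℝ (n k) z ζ = -S k z (fderiv ℝ (x k) z ζ)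
  Sjac : ∀ k < N, ∀ z ∈ U, ∀ ζ, fderiv ℝ (x k) z ζ = 0 → fderiv ℝ (S k) z ζ = 0
  surj : ∀ z ∈ U, ∀ Y δ, ⟪n 0 z, Y⟫_ℝ = 0 → ⟪e 0 z, δ⟫_ℝ = 0 →
    ∃ ζ, fderiv ℝ (x 0) z ζ = Y ∧ fderiv ℝ (e 0) z ζ = δ

namespace Chn

section
variable {E Z : Type*} [NormedAddCommGroup E] [InnerProductSpace ℝ E]
  [NormedAddCommGroup Z] [NormedSpace ℝ Z] (C : Chn E Z)

/-- The linear part of the isometry. -/
noncomputable def G : E →L[ℝ] E := (C.g.linearIsometryEquiv.toContinuousLinearEquiv : E →L[ℝ] E)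

/-- Its inverse. -/
noncomputable def Gi : E →L[ℝ] E :=
  (C.g.linearIsometryEquiv.symm.toContinuousLinearEquiv : E →L[ℝ] E)

theorem G_apply (v : E) : C.G v = C.g.linearIsometryEquiv v := rfl

theorem G_iso (v w : E) : ⟪C.G v, C.G w⟫_ℝ = ⟪v, w⟫_ℝ := C.g.linearIsometryEquiv.inner_map_map v w

theorem G_Gi (v : E) : C.G (C.Gi v) = v := C.g.linearIsometryEquiv.apply_symm_apply v

theorem Gi_G (v : E) : C.Gi (C.G v) = v := C.g.linearIsometryEquiv.symm_apply_apply v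

theorem G_adj (v w : E) : ⟪C.G v, w⟫_ℝ = ⟪v, C.Gi w⟫_ℝ := by
  nth_rewrite 1 [← C.G_Gi w]
  rw [C.G_iso]

theorem G_rf (n v : E) : C.G (rf n v) = rf (C.G n) (C.G v) := by
  unfold rf
  rw [map_sub, map_smul, C.G_iso]

theorem meas_zero {F' : Type*} [NormedAddCommGroup F'] [MeasurableSpace Z] [BorelSpace Z]
    {f : Z → F'} (hf : ∀ z ∈ C.U, ContinuousAt f z) : MeasurableSet (C.U ∩ f ⁻¹' {0}) := by
  have hc : ContinuousOn f C.U := fun z hz => (hf z hz).continuousWithinAt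
  have ho := hc.isOpen_inter_preimage C.hU (isOpen_compl_singleton (x := (0 : F')))
  have he : C.U ∩ f ⁻¹' {0} = C.U \ (C.U ∩ f ⁻¹' {0}ᶜ) := by
    ext z; simp only [mem_inter_iff, mem_preimage, mem_singleton_iff, Set.mem_sdiff, mem_compl_iff]
    tauto
  rw [he]
  exact C.hU.measurableSet.diff ho.measurableSet


end

end Chn

/-! ### The chart -/

/-- the coordinates of positions, directions and normals along a chain -/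
def vv {Z : Type*} [NormedAddCommGroup Z] [NormedSpace ℝ Z] (C : Chn (EE 0) Z) :
    Fin 3 × Fin (C.N + 1) × Fin 2 → Z → ℝ := fun l z =>
  (if l.1 = 0 then C.x l.2.1 z else if l.1 = 1 then C.e l.2.1 z else C.n l.2.1 z).ofLp l.2.2

/-- SURJ -/
def S_SURJ : Prop :=
  ∀ (Z : Type) [NormedAddCommGroup Z] [NormedSpace ℝ Z] (C : Chn (EE 0) Z),
    ∀ k < C.N, ∀ z ∈ C.U, ∀ Y δ, ⟪C.n k z, Y⟫_ℝ = 0 → ⟪C.e k z, δ⟫_ℝ = 0 →
      ∃ ζ, fderiv ℝ (C.x k) z ζ = Y ∧ fderiv ℝ (C.e k) z ζ = δ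

/-- NI: normal incidence is negligible -/
def S_NI : Prop :=
  ∀ (Z : Type) [NormedAddCommGroup Z] [NormedSpace ℝ Z] [FiniteDimensional ℝ Z]
    [MeasurableSpace Z] [BorelSpace Z] (μ : Measure Z) [μ.IsAddHaarMeasure]
    (C : Chn (EE 0) Z) (j : ℕ), 1 ≤ j → j < C.N →
    μ {z | z ∈ C.U ∧ C.e j z = -C.e (j - 1) z} = 0

/-- PT1: points have positive rank at good points -/
def S_PT1 : Prop :=
  ∀ (Z : Type) [NormedAddCommGroup Z] [NormedSpace ℝ Z] (C : Chn (EE 0) Z) (k : Type)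
    [Field k] [Algebra k ℝ] (z : Z), z ∈ C.U → GoodAt k (vv C) z → ∀ i < C.N, (1 : ℕ∞) ≤ rk k (range (C.x i z).ofLp)

/-- PT2: the normals are gradients of polynomials over the field -/
def S_PT2 : Prop :=
  ∀ (Z : Type) [NormedAddCommGroup Z] [NormedSpace ℝ Z] (C : Chn (EE 0) Z) (k : Type)
    [Field k] [Algebra k ℝ] (z : Z), z ∈ C.U → GoodAt k (vv C) z → ∀ i < C.N, rk k (range (C.x i z).ofLp) ≤ (1 : ℕ∞) →
    ∃ Φ : MvPolynomial (Fin 2) k, aeval (C.x i z).ofLp Φ = 0 ∧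
      grad Φ (C.x i z).ofLp ≠ 0 ∧
      (∀ v : EE 0, (rf (C.n i z) v).ofLp = refl (grad Φ (C.x i z).ofLp) v.ofLp) ∧
      (∀ v : EE 0, ⟪C.n i z, v⟫_ℝ ≠ 0 → ∑ l, v.ofLp l * grad Φ (C.x i z).ofLp l ≠ 0)

/-- the data of the initial vertex of a family of trajectories are functions of the first
parameter, the initial direction is a function of the second one -/
structure Split {Z₁ Z₂ : Type*} [NormedAddCommGroup Z₁] [NormedSpace ℝ Z₁]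
    [NormedAddCommGroup Z₂] [NormedSpace ℝ Z₂] (C : Chn (EE 0) (Z₁ × Z₂)) : Prop where
  x0 : ∃ X : Z₁ → EE 0, C.x 0 = fun z => X z.1
  n0 : ∃ ν : Z₁ → EE 0, C.n 0 = fun z => ν z.1
  e0 : ∃ Y : Z₂ → EE 0, C.e 0 = fun z => Y z.2

/-- PT3: the initial direction has positive rank over the field of the initial vertex -/
def S_PT3 : Prop :=
  ∀ (Z₁ Z₂ : Type) [NormedAddCommGroup Z₁] [NormedSpace ℝ Z₁] [NormedAddCommGroup Z₂]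
    [NormedSpace ℝ Z₂] (C : Chn (EE 0) (Z₁ × Z₂)) (k : Type) [Field k] [Algebra k ℝ] (z : Z₁ × Z₂),
    z ∈ C.U →
    Split C → GoodAt k (vv C) z →
    (1 : ℕ∞) ≤ rk (IntermediateField.adjoin k (range (C.x 0 z).ofLp ∪ range (C.n 0 z).ofLp))
      (range (C.e 0 z).ofLp)

/-- PT4: a vertex that does not move with the initial direction is algebraic over the field of the
initial vertex -/
def S_PT4 : Prop :=
  ∀ (Z₁ Z₂ : Type) [NormedAddCommGroup Z₁] [NormedSpace ℝ Z₁] [NormedAddCommGroup Z₂]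
    [NormedSpace ℝ Z₂] (C : Chn (EE 0) (Z₁ × Z₂)) (k : Type) [Field k] [Algebra k ℝ] (z : Z₁ × Z₂),
    z ∈ C.U →
    Split C → GoodAt k (vv C) z → ∀ j < C.N,
    (∀ ζ : Z₂, fderiv ℝ (C.x j) z (0, ζ) = 0) →
    (∀ i, (C.x j z).ofLp i ∈
      cl k ((range (C.x 0 z).ofLp ∪ range (C.n 0 z).ofLp) ∪ range (C.e 0 z).ofLp)) →
    ∀ i, IsAlgebraic (IntermediateField.adjoin k (range (C.x 0 z).ofLp ∪
      range (C.n 0 z).ofLp)) ((C.x j z).ofLp i)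

/-- CHART -/
def S_CHART : Prop :=
  ∀ (Ω : Set (EE 0)) (n : ℕ) (p u : ℕ → EE 0), 1 ≤ n → VOrb Ω p u → p n = p 0 →
    ∃ (a b : EE 0) (C : Chn (EE 0) ((ℝ ∙ a)ᗮ × (ℝ ∙ b)ᗮ)), a ≠ 0 ∧ b ≠ 0 ∧
      C.N = n ∧ C.g = AffineIsometryEquiv.refl ℝ (EE 0) ∧ Split C ∧
      (∀ z ∈ C.U, ∀ k ≤ n, ContDiffAt ℝ 1 (C.x k) z) ∧
      (∀ k ≤ n, ∃ T : EE 0 →L[ℝ] ℝ,
        (∀ z ∈ C.U, ∀ z' ∈ C.U, T (C.x k z) = T (C.x k z') → C.x k z = C.x k z') ∧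
        ∀ z ∈ C.U, ∀ ζ, T (fderiv ℝ (C.x k) z ζ) = 0 → fderiv ℝ (C.x k) z ζ = 0) ∧
      (∀ m ≤ n, ∃ K, LipschitzOnWith K (fun z => (C.x m z, C.e m z)) C.U) ∧
      ∀ᶠ w : (ℕ → EE 0) × (ℕ → EE 0) in 𝓝 (p, u), VOrb Ω w.1 w.2 → w.1 n = w.1 0 →
        ∃ z ∈ C.U, (∀ k ≤ n, C.x k z = w.1 k ∧ C.e k z = w.2 k) ∧
          C.n C.N z = C.n 0 z

/-! ### Assembly -/

/-- LOCAL -/
def S_LOCAL : Prop :=
  ∀ (Z₁ Z₂ : Type) [NormedAddCommGroup Z₁] [NormedSpace ℝ Z₁] [FiniteDimensional ℝ Z₁]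
    [MeasurableSpace Z₁] [BorelSpace Z₁] [NormedAddCommGroup Z₂] [NormedSpace ℝ Z₂]
    [FiniteDimensional ℝ Z₂] [MeasurableSpace Z₂] [BorelSpace Z₂]
    (μ : Measure (Z₁ × Z₂)) [μ.IsAddHaarMeasure] (C : Chn (EE 0) (Z₁ × Z₂)) (k : Subfield ℝ)
    (_ : Countable k) (j : ℕ) (P : ℕ → MvPolynomial (Fin 2) k),
    Module.finrank ℝ Z₂ = 1 → Split C →
    (∀ z ∈ C.U, ∀ i ≤ C.N, ContDiffAt ℝ 1 (C.x i) z) →
    (∃ T : EE 0 →L[ℝ] ℝ,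
      (∀ z ∈ C.U, ∀ z' ∈ C.U, T (C.x j z) = T (C.x j z') → C.x j z = C.x j z') ∧
      ∀ z ∈ C.U, ∀ ζ, T (fderiv ℝ (C.x j) z ζ) = 0 → fderiv ℝ (C.x j) z ζ = 0) →
    1 ≤ j → j < C.N →
    (∀ i, (C.g 0).ofLp i ∈ k) →
    (∀ i l, (C.g.linearIsometryEquiv (EuclideanSpace.single i 1)).ofLp l ∈ k) →
    (∀ i, 1 ≤ i → i < C.N → i ≠ j → NC (map (algebraMap k ℝ) (P i))) →
    μ {z | z ∈ C.U ∧ C.x C.N z = C.g (C.x 0 z) ∧ C.e C.N z = C.G (C.e 0 z) ∧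
      C.n C.N z = C.G (C.n 0 z) ∧
      (∑ i ∈ Finset.range j, C.L i z ≠ 0 ∧ ∑ i ∈ Finset.range C.N, C.L i z ≠ 0) ∧
      ∀ i, 1 ≤ i → i < C.N → i ≠ j → aeval (C.x i z).ofLp (P i) = 0} = 0

end Pool.Agent.Y294.IV
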