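import Pool.Agent.Y294.IV.Stm
import Pool.Agent.Y294.TB.Fin
import Pool.Agent.Y288.TB.Glob
import Pool.Agent.TH746.IR.Final

/-!
From the charts to the rays of invisibility. Adapted from `Pool/Agent/Y288/TB/Glob.lean` (helper288)
and `Pool/Agent/TH746/IR/Duo2.lean`.
-/

set_option autoImplicit false

open MeasureTheory Set Filter Topology
open scoped InnerProductSpace
open Pool.Agent.H721R2.Quart Pool.Agent.H721R2.Ivrii

namespace Pool.Agent.Y294.IV

open Pool.Agent.TH746 Pool.Agent.TH746.AL Pool.Agent.TH746.UM Pool.Agent.TH746.IR MvPolynomial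
open H450Al H450Sp Pool.Agent.Y294.TB

/-- The oriented lines (given by their direction and by their point nearest to the origin) of the
plane which are rays of invisibility of the body `B`, with any number of reflections, at most two of
them being at points which are not noncircular algebraic boundary points of `B`. -/
def InvTwoArb (B : Set (EuclideanSpace ℝ (Fin 2))) :
    Set (EuclideanSpace ℝ (Fin 2) × EuclideanSpace ℝ (Fin 2)) :=
  {z | ∃ (n : ℕ) (A u : ℕ → EuclideanSpace ℝ (Fin 2)), InvRay B n z.1 z.2 A u ∧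
    {i | i < n ∧ ¬ AlgAt B (A i)}.ncard ≤ 2}

/-- the closed chains with two vertices which may be arbitrary boundary points -/
def VS (Ω : Set (EE 0)) (n j : ℕ) : Set ((ℕ → EE 0) × (ℕ → EE 0)) :=
  {w | VOrb Ω w.1 w.2 ∧ w.1 n = w.1 0 ∧ w.2 n = w.2 0 ∧
    (∀ k, 1 ≤ k → k < n → k ≠ j → AlgAt Ω (w.1 k)) ∧
    ∑ k ∈ Finset.range j, ⟪w.1 (k + 1) - w.1 k, w.2 k⟫_ℝ ≠ 0 ∧
    ∑ k ∈ Finset.range n, ⟪w.1 (k + 1) - w.1 k, w.2 k⟫_ℝ ≠ 0}

theorem mem_frV {Ω : Set (EE 0)} {p u : ℕ → EE 0} (h : VOrb Ω p u) (i : ℕ) :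
    p i ∈ frontier Ω := by
  obtain ⟨F, hF, -⟩ := h.reg i
  exact ldef_frontier hF

theorem vs_null (h1 : S_CHART) (h2 : S_LOCAL) {Ω : Set (EE 0)} {n j l : ℕ} (hl : l ≤ n)
    (hj : 1 ≤ j) (hjn : j < n) :
    μH[((2 : ℕ) : ℝ)] ((fun w : (ℕ → EE 0) × (ℕ → EE 0) => (w.1 l, w.2 l)) '' VS Ω n j) = 0 := by
  classical
  obtain ⟨k, hkc, k1, k2, k3⟩ :=
    Pool.Agent.Y288.TB.exists_field' Ω (AffineIsometryEquiv.refl ℝ (EE 0))
  apply null_of_locally_null
  rintro ⟨p, u⟩ ⟨hor, hpn, hun, hal, hs1, hs2⟩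
  obtain ⟨a, b, C, ha, hb, hCN, hCg, hsp, hCD, hT, hL, hev⟩ := h1 Ω n p u (by omega) hor hpn
  have hfa : Module.finrank ℝ ((ℝ ∙ a)ᗮ : Submodule ℝ (EE 0)) = 1 := by
    have h1 := Submodule.finrank_add_finrank_orthogonal (ℝ ∙ a)
    rw [finrank_span_singleton ha, finrank_euclideanSpace_fin] at h1
    omega
  have hfb : Module.finrank ℝ ((ℝ ∙ b)ᗮ : Submodule ℝ (EE 0)) = 1 := by
    have h1 := Submodule.finrank_add_finrank_orthogonal (ℝ ∙ b)
    rw [finrank_span_singleton hb, finrank_euclideanSpace_fin] at h1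
    omega
  have hfr : Module.finrank ℝ ((ℝ ∙ a)ᗮ × (ℝ ∙ b)ᗮ) = 2 := by
    rw [Module.finrank_prod, hfa, hfb]
  have hbox : ∀ i, ∃ (B : Set (EE 0)) (P : MvPolynomial (Fin 2) k), 1 ≤ i → i < n → i ≠ j →
      IsOpen B ∧ p i ∈ B ∧ NC (map (algebraMap k ℝ) P) ∧
        ∀ y ∈ B, y ∈ frontier Ω → aeval y.ofLp P = 0 := by
    intro i
    by_cases hi : 1 ≤ i ∧ i < n ∧ i ≠ j
    · obtain ⟨B, P, hB⟩ := k3 (p i) (hal i hi.1 hi.2.1 hi.2.2)
      exact ⟨B, P, fun _ _ _ => hB⟩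
    · exact ⟨∅, 0, fun a b c => absurd ⟨a, b, c⟩ hi⟩
  choose B P hBP using hbox
  obtain ⟨A, hA⟩ : ∃ A, A = {z : (ℝ ∙ a)ᗮ × (ℝ ∙ b)ᗮ | z ∈ C.U ∧
      C.x C.N z = C.g (C.x 0 z) ∧ C.e C.N z = C.G (C.e 0 z) ∧
      C.n C.N z = C.G (C.n 0 z) ∧
      (∑ i ∈ Finset.range j, C.L i z ≠ 0 ∧ ∑ i ∈ Finset.range C.N, C.L i z ≠ 0) ∧
      ∀ i, 1 ≤ i → i < C.N → i ≠ j → aeval (C.x i z).ofLp (P i) = 0} := ⟨_, rfl⟩
  have h0 := h2 ((ℝ ∙ a)ᗮ : Submodule ℝ (EE 0)) ((ℝ ∙ b)ᗮ : Submodule ℝ (EE 0))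
    (μH[(Module.finrank ℝ ((ℝ ∙ a)ᗮ × (ℝ ∙ b)ᗮ) : ℝ)]) C k hkc j P hfb hsp
    (fun z hz i hi => hCD z hz i (by rw [← hCN]; exact hi)) (hT j hjn.le) hj
    (by rw [hCN]; exact hjn) (by rw [hCg]; exact k1) (by rw [hCg]; exact k2)
    (fun i hi1 hi hij => (hBP i hi1 (by rw [← hCN]; exact hi) hij).2.2.1)
  rw [← hA, hfr] at h0
  obtain ⟨K, hK⟩ := hL l hl
  refine ⟨(fun z => (C.x l z, C.e l z)) '' A, ?_, ?_⟩
  · have hK' : LipschitzOnWith K (fun z => (C.x l z, C.e l z)) A :=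
      hK.mono fun z hz => by rw [hA] at hz; exact hz.1
    have h3 := hK'.hausdorffMeasure_image_le (d := ((2 : ℕ) : ℝ)) (Nat.cast_nonneg _)
    rw [h0, mul_zero] at h3
    exact nonpos_iff_eq_zero.mp h3
  · have hnear : ∀ᶠ w : (ℕ → EE 0) × (ℕ → EE 0) in 𝓝 (p, u),
        ∀ i ∈ {i : ℕ | i < n}, 1 ≤ i → i ≠ j → w.1 i ∈ B i := by
      rw [Filter.eventually_all_finite (Set.finite_lt_nat n)]
      intro i hi
      by_cases hc : 1 ≤ i ∧ i ≠ j
      · obtain ⟨hB, hpB, -, -⟩ := hBP i hc.1 hi hc.2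
        have hcont : Continuous fun w : (ℕ → EE 0) × (ℕ → EE 0) => w.1 i :=
          (continuous_apply i).comp continuous_fst
        filter_upwards [hcont.continuousAt.eventually_mem (hB.mem_nhds hpB)] with w hw _ _
        exact hw
      · exact Eventually.of_forall fun w a b => absurd ⟨a, b⟩ hc
    filter_upwards [hev, hnear] with w hw hwB hor'
    obtain ⟨z, hzU, hz, hzn⟩ := hw hor'.1 hor'.2.1
    obtain ⟨hv1, hv2, hv3, hv4, hv5, hv6⟩ := hor'
    refine ⟨z, ?_, ?_⟩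
    · rw [hA]
      have hx0 := (hz 0 (Nat.zero_le _)).1
      have he0 := (hz 0 (Nat.zero_le _)).2
      have hxn := (hz n le_rfl).1
      have hen := (hz n le_rfl).2
      have hLi : ∀ i < n, C.L i z = ⟪w.1 (i + 1) - w.1 i, w.2 i⟫_ℝ := by
        intro i hi
        have hi' : i < C.N := by rw [hCN]; exact hi
        rw [← (hz (i + 1) hi).1, ← (hz i hi.le).1, ← (hz i hi.le).2, C.step i hi' z,
          add_sub_cancel_left, real_inner_smul_left, C.ee i hi' z hzU, mul_one]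
      refine ⟨hzU, ?_, ?_, ?_, ⟨?_, ?_⟩, ?_⟩
      · rw [hCN, hxn, hx0, hCg]
        exact hv2
      · rw [Chn.G_apply, hCN, hen, he0, hCg]
        exact hv3
      · rw [Chn.G_apply, hCg]
        exact hzn
      · rw [Finset.sum_congr rfl fun i hi => hLi i (by
          have := Finset.mem_range.1 hi; omega)]
        exact hv5
      · rw [hCN, Finset.sum_congr rfl fun i hi => hLi i (Finset.mem_range.1 hi)]
        exact hv6
      · intro i hi1 hi hij
        rw [hCN] at hi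
        have hxi := (hz i hi.le).1
        rw [hxi]
        exact (hBP i hi1 hi hij).2.2.2 (w.1 i) (hwB i hi hi1 hij) (mem_frV hv1 i)
    · have h3 := hz l hl
      exact Prod.ext h3.1 h3.2

theorem invTwoArb_null (h1 : S_CHART) (h2 : S_LOCAL) (B : Set (EE 0)) :
    μH[((2 : ℕ) : ℝ)] (InvTwoArb B) = 0 := by
  obtain ⟨G, hG⟩ : ∃ G : EE 0 × EE 0 → EE 0 × EE 0,
    G = fun z => (z.1 - ⟪z.1, z.2⟫_ℝ • z.2, z.2) := ⟨_, rfl⟩
  have hGc : ContDiff ℝ 1 G := by
    rw [hG]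
    exact (contDiff_fst.sub ((contDiff_fst.inner ℝ contDiff_snd).smul contDiff_snd)).prodMk
      contDiff_snd
  refine measure_mono_null (t := ⋃ n : ℕ, ⋃ m : ℕ, ⋃ l : ℕ, ⋃ (_ : 1 ≤ m ∧ m < n),
    ⋃ (_ : l ≤ n), G '' ((fun w : (ℕ → EE 0) × (ℕ → EE 0) => (w.1 l, w.2 l)) '' VS Bᶜ n m)) ?_ ?_
  · rintro ⟨y, v⟩ ⟨n, A, u, h, hs⟩
    have hn2 : 2 ≤ n := by
      by_contra hcon
      have h1 : n = 1 := by have := h.pos; omega
      subst h1
      exact h.mirror.ne h.out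
    obtain ⟨j, j', hjj, hj', hjs⟩ := exists_pair hn2 {i | i < n ∧ ¬ AlgAt B (A i)}
      (fun k hk => hk.1) hs
    have hj : j < n := by omega
    obtain ⟨c, hc⟩ : ∃ c : ℕ → ℕ, c = fun i => (i + j) % n := ⟨_, rfl⟩
    obtain ⟨h3, h4⟩ := ray_chain h hj c hc
    have hcn : ∀ i, c i < n := fun i => by rw [hc]; exact Nat.mod_lt _ (by omega)
    have c0 : c 0 = j := by rw [hc]; simp only [zero_add]; exact Nat.mod_eq_of_lt hj
    have cn : c n = j := by
      rw [hc]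
      simp only [Nat.add_mod_left]
      exact Nat.mod_eq_of_lt hj
    have cl : c (n - 1 - j) = n - 1 := by
      rw [hc]
      simp only
      rw [show n - 1 - j + j = n - 1 by omega]
      exact Nat.mod_eq_of_lt (by omega)
    have cv : ∀ i < n, c i = if i + j < n then i + j else i + j - n := by
      intro i hi
      rw [hc]
      simp only
      by_cases h3 : i + j < n
      · rw [Nat.mod_eq_of_lt h3, if_pos h3]
      · rw [if_neg h3, Nat.mod_eq_sub_mod (by omega)]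
        exact Nat.mod_eq_of_lt (by omega)
    have cs : ∀ i, i ≤ j' - j → c i = i + j := by
      intro i hi
      rw [cv i (by omega), if_pos (by omega)]
    refine mem_iUnion.2 ⟨n, mem_iUnion.2 ⟨j' - j, mem_iUnion.2 ⟨n - 1 - j, mem_iUnion₂.2
      ⟨⟨by omega, by omega⟩, by omega, ?_⟩⟩⟩⟩
    refine ⟨_, ⟨(fun i => A (c i), fun i => u (c i)), ⟨h3, ?_, ?_, ?_, ?_, h4⟩, rfl⟩, ?_⟩
    · change A (c n) = A (c 0)
      rw [cn, c0]
    · change u (c n) = u (c 0)
      rw [cn, c0]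
    · intro i hi1 hi hij
      change AlgAt Bᶜ (A (c i))
      apply algAt_compl
      by_contra hcon
      have h5 := hjs (c i) ⟨hcn i, hcon⟩
      rw [cv i hi] at h5
      split_ifs at h5 <;> omega
    · refine ne_of_gt (Finset.sum_pos (fun i hi => ?_) ⟨0, Finset.mem_range.2 (by omega)⟩)
      have hi' := Finset.mem_range.1 hi
      change 0 < ⟪A (c (i + 1)) - A (c i), u (c i)⟫_ℝ
      have hu := h3.units i
      change ⟪u (c i), u (c i)⟫_ℝ = 1 at hu
      rw [cs (i + 1) (by omega), cs i (by omega)]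
      rw [cs i (by omega)] at hu
      obtain ⟨t, ht, hq, -⟩ := h.step (i + j) (by omega)
      rw [show i + 1 + j = i + j + 1 by omega, hq, add_sub_cancel_left, real_inner_smul_left, hu,
        mul_one]
      exact ht
    · obtain ⟨s1, hs1, -⟩ := h.last
      have hvv : ⟪v, v⟫_ℝ = 1 := by
        rw [real_inner_self_eq_norm_sq, h.unit]; norm_num
      have hout := h.out
      have hperp := h.perp
      simp only at hs1 hout hperp
      rw [hG]
      simp only [cl]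
      rw [hs1, hout, inner_add_left, real_inner_smul_left, hvv, hperp]
      simp
  · refine measure_iUnion_null fun n => measure_iUnion_null fun m => measure_iUnion_null fun l =>
      measure_iUnion_null fun hm => measure_iUnion_null fun hl => ?_
    exact img_null' (Nat.cast_nonneg _) (fun z _ => hGc.contDiffAt) (vs_null h1 h2 hl hm.1 hm.2)

end Pool.Agent.Y294.IV
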