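import Pool.Agent.Y294.IV.Stm

/-! Ranks and normals at good points: copy of `Pool/Agent/Y275/TB/PT12.lean` (helper275) for flights of any
sign. -/

set_option autoImplicit false

open MeasureTheory Set Filter Topology
open scoped InnerProductSpace
open Pool.Agent.H721R2.Quart Pool.Agent.H721R2.Ivrii

namespace Pool.Agent.Y294.IV.PT

open Pool.Agent.TH746 Pool.Agent.TH746.AL MvPolynomial H450Al H450Sp Pool.Agent.Y294.TB

section
variable {Z : Type*} [NormedAddCommGroup Z] [NormedSpace ℝ Z] (C : Chn (EE 0) Z)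

/-- the index of a coordinate of a position -/
def ix {i : ℕ} (hi : i < C.N) (l : Fin 2) : Fin 3 × Fin (C.N + 1) × Fin 2 :=
  (0, ⟨i, Nat.lt_succ_of_lt hi⟩, l)

theorem vv_ix {i : ℕ} (hi : i < C.N) (l : Fin 2) (z : Z) :
    vv C (ix C hi l) z = (C.x i z).ofLp l := by
  unfold vv ix
  simp

theorem fderiv_vv {i : ℕ} (hi : i < C.N) (l : Fin 2) {z : Z} (hz : z ∈ C.U) (ζ : Z) :
    fderiv ℝ (vv C (ix C hi l)) z ζ = (fderiv ℝ (C.x i) z ζ).ofLp l := by
  obtain ⟨L, hL⟩ : ∃ L : EE 0 →L[ℝ] ℝ, ∀ v, L v = v.ofLp l :=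
    ⟨(EuclideanSpace.proj l : EE 0 →L[ℝ] ℝ), fun v => rfl⟩
  have h1 : vv C (ix C hi l) = fun z => L (C.x i z) := by
    funext z
    rw [vv_ix, hL]
  rw [h1, ← hL]
  have h2 : HasFDerivAt (fun z => L (C.x i z)) (L.comp (fderiv ℝ (C.x i) z)) z :=
    L.hasFDerivAt.comp z (C.dx i hi.le z hz).hasFDerivAt
  rw [h2.fderiv]
  rfl

/-- a tangent vector -/
noncomputable def rot (v : EE 0) : EE 0 := WithLp.toLp 2 (fun l : Fin 2 => if l = 0 then - v.ofLp 1 else v.ofLp 0)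

theorem inner2 (v w : EE 0) : ⟪v, w⟫_ℝ = v.ofLp 0 * w.ofLp 0 + v.ofLp 1 * w.ofLp 1 := by
  rw [PiLp.inner_apply]
  have h : ∀ i, ⟪v.ofLp i, w.ofLp i⟫_ℝ = v.ofLp i * w.ofLp i := by
    intro i
    rw [real_inner_comm]
    rfl
  simp only [h]
  exact Fin.sum_univ_two (fun i : Fin 2 => v.ofLp i * w.ofLp i)

theorem rot0 (v : EE 0) : (rot v).ofLp 0 = - v.ofLp 1 := rfl

theorem rot1 (v : EE 0) : (rot v).ofLp 1 = v.ofLp 0 := rfl

theorem inner_rot (v : EE 0) : ⟪v, rot v⟫_ℝ = 0 := by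
  rw [inner2, rot0, rot1]
  ring

end

theorem pt1 (h1 : S_SURJ) (h2 : S_DEP) : S_PT1 := by
  intro Z _ _ C k _ _ z hz hg i hi
  by_contra hcon
  have hcl : ∀ l : Fin 2, (C.x i z).ofLp l ∈ cl k (∅ : Set ℝ) := by
    intro l
    by_contra hn
    have h3 := rk_insert_eq k ∅ _ hn
    have h4 : rk k (insert ((C.x i z).ofLp l) ∅) ≤ rk k (range (C.x i z).ofLp) := by
      apply rk_mono'
      intro a ha
      rcases ha with ha | ha
      · exact ⟨l, ha.symm⟩
      · exact absurd ha (Set.notMem_empty a)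
    apply hcon
    refine le_trans ?_ h4
    rw [h3]
    exact le_add_self
  have hzero : ∀ (ζ : Z) (l : Fin 2), (fderiv ℝ (C.x i) z ζ).ofLp l = 0 := by
    intro ζ l
    rw [← fderiv_vv C hi l hz ζ]
    apply h2 Z k _ (vv C) z hg ∅ (ix C hi l) ζ
    · rw [vv_ix, Set.image_empty]
      exact hcl l
    · intro l hl
      exact absurd hl (Set.notMem_empty l)
  obtain ⟨ζ, hζ, -⟩ := h1 Z C i hi z hz (rot (C.n i z)) 0 (inner_rot _) (inner_zero_right _)
  have h5 := C.nn i hi z hz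
  rw [inner2] at h5
  have h6 := hzero ζ 0
  have h7 := hzero ζ 1
  rw [hζ] at h6 h7
  rw [rot0] at h6
  rw [rot1] at h7
  have h8 : (C.n i z).ofLp 1 = 0 := by linarith
  rw [h7, h8] at h5
  norm_num at h5

theorem pt2 (h1 : S_SURJ) (h2 : S_DEP) : S_PT2 := by
  intro Z _ _ C k _ _ z hz hg i hi hrk
  classical
  have hr1 := pt1 h1 h2 Z C k z hz hg i hi
  obtain ⟨Φ, hΦ, j, hj⟩ := exists_rel (k := k) (m := 0) (C.x i z).ofLp (by exact_mod_cast hr1) (by
    intro h
    have h3 := h.trans hrk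
    have h4 : ((0 + 2 : ℕ) : ℕ∞) ≤ ((1 : ℕ) : ℕ∞) := by exact_mod_cast h3
    have := Nat.cast_le.1 h4
    omega)
  have hinj : Function.Injective (ix C hi) := by
    intro a b hab
    unfold ix at hab
    simpa using hab
  have hev : ∀ R : MvPolynomial (Fin 2) k, aeval (fun l => vv C l z) (rename (ix C hi) R) =
      aeval (C.x i z).ofLp R := by
    intro R
    rw [aeval_rename]
    have h : ((fun l => vv C l z) ∘ (ix C hi)) = (C.x i z).ofLp := funext fun l => vv_ix C hi l z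
    rw [h]
  have hrel : ∀ ζ, ∑ l : Fin 2, grad Φ (C.x i z).ofLp l * (fderiv ℝ (C.x i) z ζ).ofLp l = 0 := by
    intro ζ
    have h3 := hg (rename (ix C hi) Φ) (by rw [hev]; exact hΦ) ζ
    rw [← Finset.sum_subset (Finset.subset_univ (Finset.univ.image (ix C hi)))] at h3
    · rw [Finset.sum_image (fun a _ b _ hab => hinj hab)] at h3
      rw [← h3]
      refine Finset.sum_congr rfl fun l _ => ?_
      rw [fderiv_vv C hi l hz ζ, pderiv_rename hinj, hev]
      rfl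
    · intro l _ hl
      have h4 : pderiv l (rename (ix C hi) Φ) = 0 := by
        apply pderiv_eq_zero_of_notMem_vars
        intro hmem
        have h5 := vars_rename (ix C hi) Φ hmem
        rw [Finset.mem_image] at h5
        obtain ⟨b, _, hb⟩ := h5
        exact hl (Finset.mem_image.2 ⟨b, Finset.mem_univ _, hb⟩)
      rw [h4, map_zero, zero_mul]
  obtain ⟨ζ, hζ, -⟩ := h1 Z C i hi z hz (rot (C.n i z)) 0 (inner_rot _) (inner_zero_right _)
  have h5 := hrel ζ
  rw [hζ, Fin.sum_univ_two, rot0, rot1] at h5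
  have h6 := C.nn i hi z hz
  rw [inner2] at h6
  obtain ⟨c, hc⟩ : ∃ c : ℝ, c = grad Φ (C.x i z).ofLp 0 * (C.n i z).ofLp 0 +
    grad Φ (C.x i z).ofLp 1 * (C.n i z).ofLp 1 := ⟨_, rfl⟩
  have hg0 : grad Φ (C.x i z).ofLp 0 = c * (C.n i z).ofLp 0 := by
    rw [hc]
    linear_combination (-(grad Φ (C.x i z).ofLp 0)) * h6 - (C.n i z).ofLp 1 * h5
  have hg1 : grad Φ (C.x i z).ofLp 1 = c * (C.n i z).ofLp 1 := by
    rw [hc]
    linear_combination (-(grad Φ (C.x i z).ofLp 1)) * h6 + (C.n i z).ofLp 0 * h5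
  have hgr : grad Φ (C.x i z).ofLp = c • (C.n i z).ofLp := by
    funext l
    rw [Pi.smul_apply, smul_eq_mul]
    have h7 : ∀ l : Fin 2, grad Φ (C.x i z).ofLp l = c * (C.n i z).ofLp l := by
      rw [Fin.forall_fin_two]
      exact ⟨hg0, hg1⟩
    exact h7 l
  have hne : grad Φ (C.x i z).ofLp ≠ 0 := by
    intro h
    apply hj
    exact congrFun h j
  have hc0 : c ≠ 0 := by
    rintro rfl
    apply hne
    rw [hgr, zero_smul]
  refine ⟨Φ, hΦ, hne, ?_, ?_⟩
  · intro v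
    rw [hgr, refl_smul_normal _ _ _ hc0]
    funext l
    unfold rf H450Al.refl
    have h8 : ∑ j, v.ofLp j * (C.n i z).ofLp j = ⟪C.n i z, v⟫_ℝ := by
      rw [inner2]
      refine (Fin.sum_univ_two (fun j : Fin 2 => v.ofLp j * (C.n i z).ofLp j)).trans ?_
      ring
    have h9 : ∑ j, (C.n i z).ofLp j ^ 2 = 1 := by
      refine (Fin.sum_univ_two (fun j : Fin 2 => (C.n i z).ofLp j ^ 2)).trans ?_
      linarith
    rw [h8, h9, div_one]
    simp
  · intro v hv
    rw [hgr]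
    have h8 : ∑ l : Fin 2, v.ofLp l * (c • (C.n i z).ofLp) l = c * ⟪C.n i z, v⟫_ℝ := by
      rw [Fin.sum_univ_two, inner2]
      simp only [Pi.smul_apply, smul_eq_mul]
      ring
    intro h
    apply mul_ne_zero hc0 hv
    rw [← h8]
    exact h

end Pool.Agent.Y294.IV.PT
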