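import Pool.Agent.Y294.IV.Glob
import Pool.Agent.Y294.IV.Chart
import Pool.Agent.Y294.IV.Loc3
import Pool.Agent.Y294.IV.PT12
import Pool.Agent.Y294.IV.Pt34
import Pool.Agent.Y294.IV.SURJ
import Pool.Agent.Y294.TB.Main

/-!
Rays of invisibility in the plane with at most two reflections which are not at noncircular algebraic
boundary points.
-/

set_option autoImplicit false

open MeasureTheory Set Filter Topology
open scoped InnerProductSpace

namespace Pool.Agent.Y294.IV

theorem local_thm : S_LOCAL :=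
  local_ Pool.Agent.Y86.TB.sel Pool.Agent.Y641.TB.good SU.ni
    (PT.pt1 SU.surj Pool.Agent.Y641.TB.dep)
    (PT.pt2 SU.surj Pool.Agent.Y641.TB.dep)
    (PQ.pt3 SU.surj Pool.Agent.Y641.TB.dep)
    (PQ.pt4 SU.surj Pool.Agent.Y641.TB.dep)
    Pool.Agent.Y641.TB.two Pool.Agent.Y294.TB.core1_ Pool.Agent.Y294.TB.core2_

theorem main (B : Set (EuclideanSpace ℝ (Fin 2))) : μH[2] (InvTwoArb B) = 0 := by
  have h := invTwoArb_null CH.chart local_thm B
  have e : ((2 : ℕ) : ℝ) = 2 := by norm_num
  rw [e] at h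
  exact h

end Pool.Agent.Y294.IV
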